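import Mathlib
import Pool.Agent.Q180.UW.StmL

/-!
# Project UW (helper180), job UPLA: the places of a simple abelian variety
-/

set_option linter.unusedSectionVars false

namespace Pool.Agent.Q275.UW

open Matrix Module Pool.Agent.H204R3.CM Pool.Agent.H194R3.CM Pool.Agent.W437.HC
  Pool.Agent.W437.HD Pool.Agent.W437.HQ Pool.Agent.W548.Odd Pool.Agent.TH125 Pool.Agent.Y4
  Pool.Agent.Y4.G
open Pool.Agent.Y4.H (exists_prims LZ Ct map_smul_aut' D_mem_LZ Dσ_mem_LZ)
open Pool.Agent.Y4.K (Pol Pr mu Eqv Iso)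

variable {g : ℕ} {Z : Matrix (Fin g) (Fin g) ℂ}

lemma act_act (M : Pol Z) (σ τ : ℂ ≃+* ℂ) (φ : Pr Z) :
    M.act τ (M.act σ φ) = M.act (σ.trans τ) φ := by
  apply Pr.ext
  rw [M.act_e, M.act_e, M.act_e]
  ext i j
  rfl

/-- All places are conjugate. -/
theorem conj_all (M : Pol Z) (hs : IsSimpleAV Z) (φ ψ : Pr Z) : ∃ σ : ℂ ≃+* ℂ, Eqv (M.act σ φ) ψ := by
  by_contra hcon
  push Not at hcon
  set U : Submodule ℂ (Fin g ⊕ Fin g → ℂ) :=
    Submodule.span ℂ {v | ∃ θ : Pr Z, (∃ σ : ℂ ≃+* ℂ, Eqv (M.act σ φ) θ) ∧ θ.e *ᵥ v = v} with hU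
  have htop : U = ⊤ := by
    refine stable_eq_top M.isUnit hs U ?_ ?_ ?_
    · intro τ v hv
      induction hv using Submodule.span_induction with
      | mem w hw =>
        obtain ⟨θ, ⟨σ, hσ⟩, hw⟩ := hw
        apply Submodule.subset_span
        refine ⟨M.act τ θ, ⟨σ.trans τ, ?_⟩, ?_⟩
        · rw [← act_act]
          exact M.eqv_act hσ τ
        · rw [M.act_e]
          have h1 : (θ.e.map (τ : ℂ →+* ℂ)) *ᵥ (fun i => τ (w i)) = fun i => τ ((θ.e *ᵥ w) i) := by
            funext i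
            simp [mulVec, dotProduct]
          rw [h1, hw]
      | zero =>
        have h1 : (fun i => τ ((0 : Fin g ⊕ Fin g → ℂ) i)) = 0 := by
          funext i
          simp
        rw [h1]
        exact Submodule.zero_mem _
      | add x y _ _ h1 h2 =>
        have h3 : (fun i => τ ((x + y) i)) = (fun i => τ (x i)) + fun i => τ (y i) := by
          funext i
          simp
        rw [h3]
        exact Submodule.add_mem _ h1 h2
      | smul a x _ h1 =>
        have h3 : (fun i => τ ((a • x) i)) = τ a • fun i => τ (x i) := by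
          funext i
          simp
        rw [h3]
        exact Submodule.smul_mem _ _ h1
    · intro v hv
      induction hv using Submodule.span_induction with
      | mem w hw =>
        obtain ⟨θ, hσ, hw⟩ := hw
        apply Submodule.subset_span
        refine ⟨θ, hσ, ?_⟩
        rw [mulVec_mulVec, θ.mem _ D_mem_LZ, ← mulVec_mulVec, hw]
      | zero =>
        rw [mulVec_zero]
        exact Submodule.zero_mem _
      | add x y _ _ h1 h2 =>
        rw [mulVec_add]
        exact Submodule.add_mem _ h1 h2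
      | smul a x _ h1 =>
        rw [mulVec_smul]
        exact Submodule.smul_mem _ _ h1
    · intro hbot
      apply φ.ne
      apply mulVec_ext
      intro v
      have h1 : φ.e *ᵥ v ∈ U := by
        apply Submodule.subset_span
        refine ⟨φ, ⟨RingEquiv.refl ℂ, ?_⟩, ?_⟩
        · have : M.act (RingEquiv.refl ℂ) φ = φ := by
            apply Pr.ext
            rw [M.act_e]
            ext i j
            rfl
          rw [this]
          exact Eqv.refl φ
        · rw [mulVec_mulVec, φ.idem]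
      rw [hbot, Submodule.mem_bot] at h1
      rw [h1, zero_mulVec]
  apply ψ.ne
  apply mulVec_ext
  intro v
  have hv : v ∈ U := by
    rw [htop]
    trivial
  rw [zero_mulVec]
  induction hv using Submodule.span_induction with
  | mem w hw =>
    obtain ⟨θ, ⟨σ, hσ⟩, hw⟩ := hw
    have hne : ¬ Eqv θ ψ := fun h => hcon σ (hσ.trans h)
    have h1 := M.eq_zero_of_not hne θ.mem
    rw [mul_assoc, θ.idem] at h1
    rw [← hw, mulVec_mulVec, h1, zero_mulVec]
  | zero => rw [mulVec_zero]
  | add x y _ _ h1 h2 => rw [mulVec_add, h1, h2, add_zero]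
  | smul a x _ h1 => rw [mulVec_smul, h1, smul_zero]

open Classical in
/-- The number of the members of the family in a class. -/
noncomputable def cnt {I : Type} [Fintype I] (ε : I → Pr Z) (φ : Pr Z) : ℕ :=
  (Finset.univ.filter (fun i => Eqv (ε i) φ)).card

section

variable {I : Type} [Fintype I] {ε : I → Pr Z}

lemma cnt_eqv {φ ψ : Pr Z} (h : Eqv φ ψ) : cnt ε φ = cnt ε ψ := by
  classical
  unfold cnt
  congr 1
  ext i
  simp only [Finset.mem_filter, Finset.mem_univ, true_and]
  exact ⟨fun h' => h'.trans h, fun h' => h'.trans h.symm⟩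

lemma trace_sum_e (M : Pol Z) {n : ℕ} (hn : ∀ φ : Pr Z, mu φ + mu (M.bar φ) = n)
    (s : Finset I) : trace (∑ i ∈ s, (ε i).e) = ((s.card * n : ℕ) : ℂ) := by
  rw [trace_sum]
  have h1 : ∀ i ∈ s, trace (ε i).e = (n : ℂ) := by
    intro i _
    rw [M.trace_e, hn]
  rw [Finset.sum_congr rfl h1, Finset.sum_const, nsmul_eq_mul]
  push_cast
  rfl

lemma ce_indep (M : Pol Z) (F : Pool.Agent.Y4.K.Pol.Fam ε) {J : Type} [Fintype J] {η : J → Pr Z}
    (hη : ∑ i, (η i).e = 1) (φ : Pr Z) : M.ce ε φ = M.ce η φ := by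
  classical
  calc M.ce ε φ = M.ce ε φ * ∑ i, (η i).e := by rw [hη, mul_one]
  _ = ∑ i, M.ce ε φ * (η i).e := by rw [Finset.mul_sum]
  _ = ∑ i, (if Eqv (η i) φ then (η i).e else 0) := by
      refine Finset.sum_congr rfl fun i _ => ?_
      rw [M.ce_mul F]
  _ = M.ce η φ := by
      rw [← Finset.sum_filter]
      rfl

lemma eqv_act_iff (M : Pol Z) (σ : ℂ ≃+* ℂ) (φ ψ : Pr Z) :
    Eqv (M.act σ φ) (M.act σ ψ) ↔ Eqv φ ψ := by
  constructor
  · intro h
    have h1 := M.eqv_act h σ.symm
    rwa [M.act_symm, M.act_symm] at h1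
  · intro h
    exact M.eqv_act h σ

lemma cnt_act (M : Pol Z) (F : Pool.Agent.Y4.K.Pol.Fam ε) {n : ℕ} (hn0 : 0 < n)
    (hn : ∀ φ : Pr Z, mu φ + mu (M.bar φ) = n) (σ : ℂ ≃+* ℂ) (φ : Pr Z) :
    cnt ε (M.act σ φ) = cnt ε φ := by
  classical
  have hη : ∑ i, (M.act σ (ε i)).e = 1 := by
    have h1 := congrArg (fun Y : Matrix _ _ ℂ => Y.map (σ : ℂ →+* ℂ)) F.sum
    have h2 : (∑ i, (ε i).e).map (σ : ℂ →+* ℂ) = ∑ i, (M.act σ (ε i)).e := by
      ext a b
      simp [Matrix.sum_apply, M.act_e]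
    rw [h2] at h1
    rw [h1]
    ext a b
    simp [Matrix.one_apply]
  have h3 := ce_indep M F hη (M.act σ φ)
  have h4 : M.ce (fun i => M.act σ (ε i)) (M.act σ φ) = (M.ce ε φ).map (σ : ℂ →+* ℂ) := by
    unfold Pol.ce
    have h5 : (∑ i ∈ Finset.univ.filter (fun i => Eqv (ε i) φ), (ε i).e).map (σ : ℂ →+* ℂ) =
        ∑ i ∈ Finset.univ.filter (fun i => Eqv (ε i) φ), (M.act σ (ε i)).e := by
      ext a b
      simp [Matrix.sum_apply, M.act_e]
    rw [h5]
    congr 1
    ext i
    simp only [Finset.mem_filter, Finset.mem_univ, true_and]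
    exact eqv_act_iff M σ _ _
  have h6 : trace (M.ce ε (M.act σ φ)) = ((cnt ε (M.act σ φ) * n : ℕ) : ℂ) := by
    have := trace_sum_e (ε := ε) M hn (Finset.univ.filter (fun i => Eqv (ε i) (M.act σ φ)))
    unfold Pol.ce cnt
    exact this
  have h7 : trace (M.ce ε φ) = ((cnt ε φ * n : ℕ) : ℂ) := by
    have := trace_sum_e (ε := ε) M hn (Finset.univ.filter (fun i => Eqv (ε i) φ))
    unfold Pol.ce cnt
    exact this
  have h8 : trace ((M.ce ε φ).map (σ : ℂ →+* ℂ)) = σ (trace (M.ce ε φ)) :=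
    (AddMonoidHom.map_trace (σ : ℂ →+* ℂ).toAddMonoidHom _).symm
  rw [h3, h4, h8, h7, map_natCast] at h6
  have h9 : cnt ε φ * n = cnt ε (M.act σ φ) * n := by exact_mod_cast h6
  exact (Nat.eq_of_mul_eq_mul_right hn0 h9).symm

lemma card_reps {P : Type} [Fintype P] {ρ : P → Pr Z}
    (inj : ∀ p q, Eqv (ρ p) (ρ q) → p = q) (surj : ∀ φ : Pr Z, ∃ p, Eqv (ρ p) φ) {d : ℕ}
    (hd : ∀ φ, cnt ε φ = d) : Fintype.card I = Fintype.card P * d := by
  classical
  have h1 : ∀ i : I, ∃ p, Eqv (ρ p) (ε i) := fun i => surj (ε i)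
  choose f hf using h1
  have h2 := Finset.card_eq_sum_card_fiberwise (f := f) (s := (Finset.univ : Finset I))
    (t := (Finset.univ : Finset P)) (fun i _ => Finset.mem_univ _)
  rw [Finset.card_univ] at h2
  rw [h2]
  have h3 : ∀ p : P, (Finset.univ.filter (fun i => f i = p)).card = d := by
    intro p
    rw [← hd (ρ p)]
    unfold cnt
    congr 1
    ext i
    simp only [Finset.mem_filter, Finset.mem_univ, true_and]
    constructor
    · rintro rfl
      exact (hf i).symm
    · intro h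
      exact inj _ _ ((hf i).trans h)
  rw [Finset.sum_congr rfl (fun p _ => h3 p), Finset.sum_const, Finset.card_univ, smul_eq_mul]

lemma card_mul (M : Pol Z) (F : Pool.Agent.Y4.K.Pol.Fam ε) {n : ℕ}
    (hn : ∀ φ : Pr Z, mu φ + mu (M.bar φ) = n) : 2 * g = Fintype.card I * n := by
  have h1 := trace_sum_e (ε := ε) M hn Finset.univ
  rw [F.sum, trace_one, Fintype.card_sum, Fintype.card_fin, Finset.card_univ] at h1
  have h2 : g + g = Fintype.card I * n := by exact_mod_cast h1
  omega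

end

end Pool.Agent.Q275.UW
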