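import Mathlib
import Pool.Agent.Q275.UW.Pla

/-!
# Project UW (helper180), job UPLA: the dimension of the endomorphism algebra
-/

set_option linter.unusedSectionVars false

namespace Pool.Agent.Q275.UW

open Matrix Module Pool.Agent.H204R3.CM Pool.Agent.H194R3.CM Pool.Agent.W437.HC
  Pool.Agent.W437.HD Pool.Agent.W437.HQ Pool.Agent.W548.Odd Pool.Agent.TH125 Pool.Agent.Y4
  Pool.Agent.Y4.G
open Pool.Agent.Y4.H (exists_prims LZ Ct map_smul_aut' D_mem_LZ Dσ_mem_LZ)
open Pool.Agent.Y4.K (Pol Pr mu Eqv Iso)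

variable {g : ℕ} {Z : Matrix (Fin g) (Fin g) ℂ}

section

variable {I : Type} [Fintype I] {ε : I → Pr Z}

/-- Pairs of equivalent members of the family. -/
abbrev PS (ε : I → Pr Z) : Type := {x : I × I // Eqv (ε x.1) (ε x.2)}

open Classical in
noncomputable instance : Fintype (PS ε) := Subtype.fintype _

lemma card_PS {d : ℕ} (hd : ∀ φ, cnt ε φ = d) : Fintype.card (PS ε) = Fintype.card I * d := by
  classical
  have h1 := Finset.card_eq_sum_card_fiberwise (f := fun x : PS ε => x.1.2)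
    (s := (Finset.univ : Finset (PS ε))) (t := (Finset.univ : Finset I))
    (fun i _ => Finset.mem_univ _)
  rw [Finset.card_univ] at h1
  rw [h1]
  have h3 : ∀ k : I, (Finset.univ.filter (fun x : PS ε => x.1.2 = k)).card = d := by
    intro k
    rw [← hd (ε k)]
    unfold cnt
    refine Finset.card_bij (fun x _ => x.1.1) ?_ ?_ ?_
    · intro x hx
      simp only [Finset.mem_filter, Finset.mem_univ, true_and] at hx ⊢
      rw [← hx]
      exact x.2
    · intro x hx y hy hxy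
      simp only [Finset.mem_filter, Finset.mem_univ, true_and] at hx hy
      apply Subtype.ext
      exact Prod.ext hxy (hx.trans hy.symm)
    · intro i hi
      simp only [Finset.mem_filter, Finset.mem_univ, true_and] at hi
      exact ⟨⟨(i, k), hi⟩, by simp, rfl⟩
  rw [Finset.sum_congr rfl (fun p _ => h3 p), Finset.sum_const, Finset.card_univ, smul_eq_mul]

/-- The dimension of the commutant. -/
theorem finrank_Cm (M : Pol Z) (F : Pool.Agent.Y4.K.Pol.Fam ε) {d : ℕ}
    (hd : ∀ φ, cnt ε φ = d) :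
    finrank ℂ (Cm (DZ '' {Z}) : Submodule ℂ (Matrix (Fin g ⊕ Fin g) (Fin g ⊕ Fin g) ℂ)) =
      Fintype.card I * d := by
  classical
  have hx : ∀ x : PS ε, ∃ a b, Iso (ε x.1.1) (ε x.1.2) a b := fun x => x.2
  choose a b hab using hx
  let v : PS ε → (Cm (DZ '' {Z}) : Submodule ℂ (Matrix (Fin g ⊕ Fin g) (Fin g ⊕ Fin g) ℂ)) :=
    fun x => ⟨a x, (hab x).ca⟩
  have ha0 : ∀ x, a x ≠ 0 := by
    intro x h
    have h1 := (hab x).ba
    rw [h, mul_zero] at h1
    exact (ε x.1.1).ne h1.symm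
  have hpick : ∀ x x0 : PS ε, (ε x0.1.2).e * a x * (ε x0.1.1).e = if x = x0 then a x0 else 0 := by
    intro x x0
    by_cases h : x = x0
    · subst h
      rw [if_pos rfl, (hab x).la, (hab x).ra]
    · rw [if_neg h]
      have h1 : a x = (ε x.1.2).e * a x * (ε x.1.1).e := by rw [(hab x).la, (hab x).ra]
      rw [h1]
      by_cases h2 : x0.1.2 = x.1.2
      · have h3 : x.1.1 ≠ x0.1.1 := by
          intro h4
          apply h
          exact Subtype.ext (Prod.ext h4 h2.symm)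
        have h5 := F.orth _ _ h3
        calc (ε x0.1.2).e * ((ε x.1.2).e * a x * (ε x.1.1).e) * (ε x0.1.1).e =
            (ε x0.1.2).e * (ε x.1.2).e * a x * ((ε x.1.1).e * (ε x0.1.1).e) := by noncomm_ring
        _ = 0 := by rw [h5, mul_zero]
      · have h5 := F.orth _ _ h2
        calc (ε x0.1.2).e * ((ε x.1.2).e * a x * (ε x.1.1).e) * (ε x0.1.1).e =
            ((ε x0.1.2).e * (ε x.1.2).e) * a x * ((ε x.1.1).e * (ε x0.1.1).e) := by noncomm_ring
        _ = 0 := by rw [h5, zero_mul, zero_mul]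
  have hli : LinearIndependent ℂ v := by
    rw [Fintype.linearIndependent_iff]
    intro c hc x0
    have h1 : ∑ x, c x • a x = 0 := by
      have h2 := congrArg Subtype.val hc
      simpa [v] using h2
    have h2 : (ε x0.1.2).e * (∑ x, c x • a x) * (ε x0.1.1).e = c x0 • a x0 := by
      rw [Finset.mul_sum, Finset.sum_mul]
      rw [Finset.sum_eq_single x0]
      · rw [Matrix.mul_smul, Matrix.smul_mul, hpick, if_pos rfl]
      · intro x _ hne
        rw [Matrix.mul_smul, Matrix.smul_mul, hpick, if_neg hne, smul_zero]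
      · intro h
        exact absurd (Finset.mem_univ _) h
    rw [h1, mul_zero, zero_mul] at h2
    exact (smul_eq_zero.1 h2.symm).resolve_right (ha0 x0)
  have hsp : ⊤ ≤ Submodule.span ℂ (Set.range v) := by
    rintro ⟨c, hc⟩ _
    have hc' : Ct Z c := hc
    have hmem : ∀ i k : I, ∃ lam : PS ε → ℂ, (ε k).e * c * (ε i).e = ∑ x, lam x • a x := by
      intro i k
      by_cases h : Eqv (ε i) (ε k)
      · have hI := hab ⟨(i, k), h⟩
        obtain ⟨lam, hlam⟩ := (ε i).prim (b ⟨(i, k), h⟩ * c) (InCm.mul hI.cb hc')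
        refine ⟨fun x => if x = ⟨(i, k), h⟩ then lam else 0, ?_⟩
        rw [Finset.sum_eq_single (⟨(i, k), h⟩ : PS ε)]
        · simp only [if_true]
          calc (ε k).e * c * (ε i).e = (a ⟨(i, k), h⟩ * b ⟨(i, k), h⟩) * c * (ε i).e := by
                rw [hI.ab]
          _ = a ⟨(i, k), h⟩ * ((ε i).e * (b ⟨(i, k), h⟩ * c) * (ε i).e) := by
                rw [← mul_assoc (ε i).e, hI.lb]
                noncomm_ring
          _ = lam • a ⟨(i, k), h⟩ := by rw [hlam, Matrix.mul_smul, hI.ra]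
        · intro x _ hne
          simp only [hne, if_false, zero_smul]
        · intro h
          exact absurd (Finset.mem_univ _) h
      · refine ⟨fun _ => 0, ?_⟩
        rw [M.eq_zero_of_not h hc']
        simp
    have hsum : c = ∑ i, ∑ k, (ε k).e * c * (ε i).e := by
      have e1 : ∀ i, ∑ k, (ε k).e * c * (ε i).e = c * (ε i).e := fun i => by
        rw [← Finset.sum_mul, ← Finset.sum_mul, F.sum, one_mul]
      rw [Finset.sum_congr rfl fun i _ => e1 i, ← Finset.mul_sum, F.sum, mul_one]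
    choose lam hlam using hmem
    have h3 : (⟨c, hc⟩ : (Cm (DZ '' {Z}) : Submodule ℂ _)) = ∑ i, ∑ k, ∑ x, lam i k x • v x := by
      apply Subtype.ext
      simp only [Submodule.coe_sum, Submodule.coe_smul]
      rw [hsum]
      refine Finset.sum_congr rfl fun i _ => Finset.sum_congr rfl fun k _ => ?_
      exact hlam i k
    rw [h3]
    refine Submodule.sum_mem _ fun i _ => Submodule.sum_mem _ fun k _ =>
      Submodule.sum_mem _ fun x _ => Submodule.smul_mem _ _ (Submodule.subset_span ⟨x, rfl⟩)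
  rw [finrank_eq_card_basis (Basis.mk hli hsp), card_PS hd]

end

/-- The rational endomorphisms. -/
def EE (Z : Matrix (Fin g) (Fin g) ℂ) :
    Subalgebra ℚ (Matrix (Fin g ⊕ Fin g) (Fin g ⊕ Fin g) ℚ) where
  carrier := {f | Ct Z (cq f)}
  mul_mem' := by
    intro f f' h h'
    change Ct Z _
    rw [cq_mul]
    exact InCm.mul h h'
  add_mem' := by
    intro f f' h h'
    change Ct Z _
    have h1 : cq (f + f') = cq f + cq f' := by
      ext i j
      simp [cq]
    rw [h1]
    intro X hX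
    rw [add_mul, mul_add, h X hX, h' X hX]
  algebraMap_mem' := by
    intro r
    change Ct Z _
    have h1 : cq (algebraMap ℚ (Matrix (Fin g ⊕ Fin g) (Fin g ⊕ Fin g) ℚ) r) =
        (r : ℂ) • (1 : Matrix (Fin g ⊕ Fin g) (Fin g ⊕ Fin g) ℂ) := by
      ext i j
      simp [cq, Matrix.one_apply, Algebra.algebraMap_eq_smul_one]
      split_ifs <;> simp
    rw [h1]
    intro X _
    rw [Matrix.smul_mul, Matrix.mul_smul, one_mul, mul_one]

lemma cq_zero' : cq (0 : Matrix (Fin g ⊕ Fin g) (Fin g ⊕ Fin g) ℚ) = 0 := by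
  ext i j
  simp [cq]

/-- A nonzero rational endomorphism of a simple abelian variety is injective. -/
lemma ker_bot (M : Pol Z) (hs : IsSimpleAV Z) {ψ : Matrix (Fin g ⊕ Fin g) (Fin g ⊕ Fin g) ℚ}
    (h : Ct Z (cq ψ)) (h0 : ψ ≠ 0) : LinearMap.ker (mulVecLin (cq ψ)) = ⊥ := by
  by_contra hne
  have htop := stable_eq_top M.isUnit hs (LinearMap.ker (mulVecLin (cq ψ))) ?_ ?_ hne
  · apply h0
    apply cq_inj
    rw [cq_zero']
    apply mulVec_ext
    intro v
    have hv : v ∈ LinearMap.ker (mulVecLin (cq ψ)) := by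
      rw [htop]
      trivial
    rw [zero_mulVec]
    exact hv
  · intro σ v hv
    rw [LinearMap.mem_ker, mulVecLin_apply] at hv ⊢
    have h2 : cq ψ *ᵥ (fun i => σ (v i)) = fun i => σ ((cq ψ *ᵥ v) i) := by
      funext i
      simp [mulVec, dotProduct, cq]
    rw [h2, hv]
    funext i
    simp
  · intro v hv
    rw [LinearMap.mem_ker, mulVecLin_apply] at hv ⊢
    rw [mulVec_mulVec, h _ D_mem_LZ, ← mulVec_mulVec, hv, mulVec_zero]

lemma EE_mem (f : Matrix (Fin g ⊕ Fin g) (Fin g ⊕ Fin g) ℚ) : f ∈ EE Z ↔ Ct Z (cq f) := Iff.rfl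

lemma EE_noZero (M : Pol Z) (hs : IsSimpleAV Z) (a b : EE Z) (h : a * b = 0) : a = 0 ∨ b = 0 := by
  by_contra hcon
  push Not at hcon
  obtain ⟨ha, hb⟩ := hcon
  have ha' : (a : Matrix (Fin g ⊕ Fin g) (Fin g ⊕ Fin g) ℚ) ≠ 0 := fun h1 => ha (Subtype.ext h1)
  have hk := ker_bot M hs a.2 ha'
  have h1 : (a : Matrix (Fin g ⊕ Fin g) (Fin g ⊕ Fin g) ℚ) * b = 0 := congrArg Subtype.val h
  apply hb
  apply Subtype.ext
  change (b : Matrix (Fin g ⊕ Fin g) (Fin g ⊕ Fin g) ℚ) = 0
  apply cq_inj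
  rw [cq_zero']
  apply mulVec_ext
  intro v
  rw [zero_mulVec]
  have h5 : cq (b : Matrix (Fin g ⊕ Fin g) (Fin g ⊕ Fin g) ℚ) *ᵥ v ∈
      LinearMap.ker (mulVecLin (cq (a : Matrix (Fin g ⊕ Fin g) (Fin g ⊕ Fin g) ℚ))) := by
    rw [LinearMap.mem_ker, mulVecLin_apply, mulVec_mulVec, ← cq_mul, h1, cq_zero', zero_mulVec]
  rw [hk, Submodule.mem_bot] at h5
  exact h5

lemma EE_li {k : ℕ} {b : Fin k → Matrix (Fin g ⊕ Fin g) (Fin g ⊕ Fin g) ℚ}
    (hb : LinearIndependent ℚ b) {z : Fin k → ℂ} (hz : ∑ i, z i • cq (b i) = 0) (j : Fin k) :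
    z j = 0 := by
  rw [← Module.forall_dual_apply_eq_zero_iff ℚ]
  intro f
  have h2 : ∑ i, f (z i) • b i = 0 := by
    ext p q
    have h3 := congrFun (congrFun hz p) q
    have h4 := congrArg f h3
    rw [Matrix.sum_apply, map_sum] at h4
    rw [Matrix.sum_apply]
    have h5 : ∀ i, f ((z i • cq (b i)) p q) = (f (z i) • b i) p q := by
      intro i
      have h6 : (z i • cq (b i)) p q = (b i p q) • z i := by
        rw [Matrix.smul_apply, cq, Matrix.map_apply, smul_eq_mul, mul_comm]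
        exact (Rat.smul_def (b i p q) (z i)).symm
      rw [h6, map_smul, Matrix.smul_apply, smul_eq_mul, smul_eq_mul, mul_comm]
    rw [Finset.sum_congr rfl (fun i _ => h5 i)] at h4
    rw [h4]
    simp
  exact (Fintype.linearIndependent_iff.1 hb) _ h2 j

/-- The dimension of the rational commutant. -/
theorem finrank_EE : finrank ℚ (EE Z) =
    finrank ℂ (Cm (DZ '' {Z}) : Submodule ℂ (Matrix (Fin g ⊕ Fin g) (Fin g ⊕ Fin g) ℂ)) := by
  classical
  let b := Module.finBasis ℚ (EE Z)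
  let c : Fin (finrank ℚ (EE Z)) → Matrix (Fin g ⊕ Fin g) (Fin g ⊕ Fin g) ℚ := fun i => (b i).1
  have hc : ∀ i, Ct Z (cq (c i)) := fun i => (b i).2
  have hcli : LinearIndependent ℚ c := by
    have h1 := b.linearIndependent
    exact h1.map' (EE Z).val.toLinearMap (by
      rw [LinearMap.ker_eq_bot]
      exact Subtype.val_injective)
  have hcsp : ∀ u : Matrix (Fin g ⊕ Fin g) (Fin g ⊕ Fin g) ℚ, Ct Z (cq u) →
      ∃ r : Fin (finrank ℚ (EE Z)) → ℚ, u = ∑ i, r i • c i := by
    intro u hu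
    refine ⟨fun i => b.repr ⟨u, hu⟩ i, ?_⟩
    have h2 := congrArg Subtype.val (b.sum_repr ⟨u, hu⟩)
    have h3 : (∑ i, b.repr ⟨u, hu⟩ i • b i : EE Z).1 = ∑ i, b.repr ⟨u, hu⟩ i • c i := by
      change (EE Z).val (∑ i, b.repr ⟨u, hu⟩ i • b i) = _
      rw [map_sum]
      rfl
    rw [← h3]
    exact h2.symm
  clear_value c
  let v : Fin (finrank ℚ (EE Z)) →
      (Cm (DZ '' {Z}) : Submodule ℂ (Matrix (Fin g ⊕ Fin g) (Fin g ⊕ Fin g) ℂ)) :=
    fun i => ⟨cq (c i), hc i⟩
  have hli : LinearIndependent ℂ v := by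
    rw [Fintype.linearIndependent_iff]
    intro z hz k
    apply EE_li hcli
    have h2 := congrArg Subtype.val hz
    simpa [v] using h2
  have hsp : ⊤ ≤ Submodule.span ℂ (Set.range v) := by
    have key : ∀ X, InCm (DZ '' {Z}) X →
        ∃ lam : Fin (finrank ℚ (EE Z)) → ℂ, X = ∑ i, lam i • cq (c i) := by
      apply Cm_induction
      · intro u hu
        obtain ⟨r, hr⟩ := hcsp u hu
        refine ⟨fun i => ((r i : ℚ) : ℂ), ?_⟩
        rw [hr]
        ext p q
        simp [cq, Matrix.sum_apply]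
      · exact ⟨fun _ => 0, by simp⟩
      · rintro X Y ⟨l, hl⟩ ⟨l', hl'⟩
        refine ⟨fun i => l i + l' i, ?_⟩
        rw [hl, hl', ← Finset.sum_add_distrib]
        exact Finset.sum_congr rfl fun i _ => (add_smul _ _ _).symm
      · rintro c X ⟨l, hl⟩
        refine ⟨fun i => c * l i, ?_⟩
        rw [hl, Finset.smul_sum]
        exact Finset.sum_congr rfl fun i _ => smul_smul _ _ _
    rintro ⟨x, hx⟩ _
    obtain ⟨lam, hlam⟩ := key x hx
    have h3 : (⟨x, hx⟩ : (Cm (DZ '' {Z}) : Submodule ℂ _)) = ∑ i, lam i • v i := by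
      apply Subtype.ext
      simp only [Submodule.coe_sum, Submodule.coe_smul]
      exact hlam
    rw [h3]
    exact Submodule.sum_mem _ fun x _ => Submodule.smul_mem _ _ (Submodule.subset_span ⟨x, rfl⟩)
  rw [finrank_eq_card_basis (Basis.mk hli hsp), Fintype.card_fin]

theorem dvd_of_domain (A : Type) [Ring A] [IsDomain A] [Algebra ℚ A] [FiniteDimensional ℚ A]
    (V : Type) [AddCommGroup V] [Module ℚ V] [FiniteDimensional ℚ V]
    (ρ : A →ₐ[ℚ] Module.End ℚ V) : finrank ℚ A ∣ finrank ℚ V := by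
  let _i1 : DivisionRing A := divisionRingOfFiniteDimensional ℚ A
  let _i2 : Module A V := Module.compHom V ρ.toRingHom
  have : IsScalarTower ℚ A V := ⟨fun q a v => by
    change (ρ (q • a)) v = q • (ρ a) v
    rw [map_smul]
    rfl⟩
  have h1 := Module.finrank_mul_finrank ℚ A V
  exact ⟨_, h1.symm⟩

/-- The dimension of the endomorphism algebra divides the dimension of the homology. -/
theorem EE_dvd (M : Pol Z) (hs : IsSimpleAV Z) (hg : 0 < g) : finrank ℚ (EE Z) ∣ 2 * g := by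
  classical
  have _i0 : Nonempty (Fin g ⊕ Fin g) := ⟨Sum.inl ⟨0, hg⟩⟩
  have _i1 : Nontrivial (EE Z) := by
    refine ⟨⟨0, 1, ?_⟩⟩
    intro h
    have h1 := congrArg Subtype.val h
    have h2 : (0 : Matrix (Fin g ⊕ Fin g) (Fin g ⊕ Fin g) ℚ) = 1 := h1
    exact zero_ne_one h2
  have _i2 : NoZeroDivisors (EE Z) := ⟨fun {a b} h => EE_noZero M hs a b h⟩
  have _i3 : IsDomain (EE Z) := NoZeroDivisors.to_isDomain _
  have h1 := dvd_of_domain (EE Z) (Fin g ⊕ Fin g → ℚ)
    ((Matrix.toLinAlgEquiv' : Matrix (Fin g ⊕ Fin g) (Fin g ⊕ Fin g) ℚ ≃ₐ[ℚ] _).toAlgHom.comp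
      (EE Z).val)
  rw [Module.finrank_fintype_fun_eq_card, Fintype.card_sum, Fintype.card_fin] at h1
  rw [two_mul]
  exact h1

end Pool.Agent.Q275.UW
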