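import Mathlib
import Pool.Agent.Q275.UW.Pla2

/-!
# Project UW (helper180), job UPLA: conclusion
-/

set_option linter.unusedSectionVars false

namespace Pool.Agent.Q275.UW

open Matrix Module Pool.Agent.H204R3.CM Pool.Agent.H194R3.CM Pool.Agent.W437.HC
  Pool.Agent.W437.HD Pool.Agent.W437.HQ Pool.Agent.W548.Odd Pool.Agent.TH125 Pool.Agent.Y4
  Pool.Agent.Y4.G
open Pool.Agent.Y4.H (exists_prims LZ Ct map_smul_aut' D_mem_LZ Dσ_mem_LZ)
open Pool.Agent.Y4.K (Pol Pr mu Eqv Iso)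

/-- JOB UPLA. -/
theorem pla : Pool.Agent.Q180.UW.S_pla := by
  classical
  intro g Z M hs hg
  refine ⟨fun φ ψ => conj_all M hs φ ψ, ?_⟩
  obtain ⟨I, hI, ε, f1, f2, f3⟩ := M.exists_family
  have F : Pool.Agent.Y4.K.Pol.Fam ε := ⟨f1, f2, f3⟩
  have hne : Nonempty I := by
    by_contra h
    have h1 : IsEmpty I := not_nonempty_iff.1 h
    rw [Finset.univ_eq_empty, Finset.sum_empty] at f3
    have h2 := congrFun (congrFun f3 (Sum.inl ⟨0, hg⟩)) (Sum.inl ⟨0, hg⟩)
    simp at h2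
  obtain ⟨i0⟩ := hne
  obtain ⟨n, hn0⟩ : ∃ n, n = mu (ε i0) + mu (M.bar (ε i0)) := ⟨_, rfl⟩
  have hn : ∀ φ : Pr Z, mu φ + mu (M.bar φ) = n := by
    intro φ
    obtain ⟨σ, hσ⟩ := conj_all M hs (ε i0) φ
    rw [← M.mu_eqv hσ, ← M.mu_eqv (M.eqv_bar hσ), M.mu_act, hn0]
  have hnpos : 0 < n := by
    rw [hn0]
    exact M.mu_pos _
  obtain ⟨d, hd0⟩ : ∃ d, d = cnt ε (ε i0) := ⟨_, rfl⟩
  have hd : ∀ φ, cnt ε φ = d := by
    intro φ
    obtain ⟨σ, hσ⟩ := conj_all M hs (ε i0) φ
    rw [← cnt_eqv hσ, cnt_act M F hnpos hn, hd0]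
  have hcard := card_mul M F hn
  have hdvd := EE_dvd M hs hg
  rw [finrank_EE, finrank_Cm M F hd] at hdvd
  by_cases hd1 : d = 1
  · have huniq : ∀ i k : I, Eqv (ε i) (ε k) → i = k := by
      intro i k h
      have h1 := hd (ε k)
      rw [hd1] at h1
      unfold cnt at h1
      rw [Finset.card_eq_one] at h1
      obtain ⟨j, hj⟩ := h1
      have h2 : i ∈ Finset.univ.filter (fun i => Eqv (ε i) (ε k)) := by
        simp only [Finset.mem_filter, Finset.mem_univ, true_and]
        exact h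
      have h3 : k ∈ Finset.univ.filter (fun i => Eqv (ε i) (ε k)) := by
        simp only [Finset.mem_filter, Finset.mem_univ, true_and]
        exact Eqv.refl _
      rw [hj, Finset.mem_singleton] at h2 h3
      rw [h2, h3]
    refine ⟨Fintype.card I, d, n, ?_, ?_, hn, I, hI, Classical.decEq I, ε, rfl,
      fun φ => M.eqv_family f3 φ, huniq, ?_⟩
    · rw [hcard, hd1, mul_one]
    · rw [hd1, one_pow, mul_one]
      rw [hd1, mul_one] at hdvd
      exact hdvd
    · intro _
      refine ⟨f3, fun c hc => ?_⟩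
      have h1 : ∀ i, ∃ lam : ℂ, (ε i).e * c * (ε i).e = lam • (ε i).e := fun i => (ε i).prim c hc
      choose lam hlam using h1
      refine ⟨lam, ?_⟩
      have h2 : c = ∑ i, ∑ k, (ε k).e * c * (ε i).e := by
        have e1 : ∀ i, ∑ k, (ε k).e * c * (ε i).e = c * (ε i).e := fun i => by
          rw [← Finset.sum_mul, ← Finset.sum_mul, F.sum, one_mul]
        rw [Finset.sum_congr rfl fun i _ => e1 i, ← Finset.mul_sum, F.sum, mul_one]
      nth_rewrite 1 [h2]
      refine Finset.sum_congr rfl fun i _ => ?_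
      rw [Finset.sum_eq_single i]
      · exact hlam i
      · intro k _ hk
        exact M.eq_zero_of_not (fun h => hk (huniq i k h).symm) hc
      · intro h
        exact absurd (Finset.mem_univ _) h
  · obtain ⟨P, hP, ρ, R⟩ := M.exists_reps
    have h1 := card_reps (ε := ε) R.inj R.surj hd
    refine ⟨Fintype.card P, d, n, ?_, ?_, hn, P, hP, Classical.decEq P, ρ, rfl, R.surj, R.inj,
      fun h => absurd h hd1⟩
    · rw [hcard, h1]
    · rw [h1] at hdvd
      rw [sq, ← mul_assoc]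
      exact hdvd

end Pool.Agent.Q275.UW
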