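import Mathlib
import Pool.Agent.Q180.UW.StmL

/-!
# Project UW (helper180), job UPRIME: multiplicity free commutants, places of dimension one and two
-/

set_option linter.unusedSectionVars false

namespace Pool.Agent.Q275.UW

open Matrix Module Pool.Agent.H204R3.CM Pool.Agent.H194R3.CM Pool.Agent.W437.HC
  Pool.Agent.W437.HD Pool.Agent.W437.HQ Pool.Agent.W437.HR Pool.Agent.W548.Odd
  Pool.Agent.TH125 Pool.Agent.Y4 Pool.Agent.Y4.G
open Pool.Agent.Y4.H (exists_prims LZ Ct map_smul_aut' D_mem_LZ Dσ_mem_LZ)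
open Pool.Agent.Y4.K (Pol Pr mu Eqv Iso pr qr pr_add_qr' pr_sub_qr')
open Pool.Agent.Q60.D3 (Comm)

variable {g : ℕ} {Z : Matrix (Fin g) (Fin g) ℂ}

/-- A system of representatives with sum one, which spans the commutant. -/
structure MF {P : Type} [Fintype P] [DecidableEq P] (ρ : P → Pr Z) : Prop where
  surj : ∀ φ : Pr Z, ∃ p, Eqv (ρ p) φ
  inj : ∀ p q, Eqv (ρ p) (ρ q) → p = q
  sum : ∑ p, (ρ p).e = 1
  ct : ∀ c, Ct Z c → ∃ lam : P → ℂ, c = ∑ p, lam p • (ρ p).e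

namespace MF

variable {P : Type} [Fintype P] [DecidableEq P] {ρ : P → Pr Z}

theorem orth (H : MF ρ) (M : Pol Z) {p q : P} (h : p ≠ q) : (ρ p).e * (ρ q).e = 0 := by
  have h1 := M.eq_zero_of_not (ε := ρ q) (η := ρ p) (fun h' => h (H.inj _ _ h').symm) (ρ p).mem
  rwa [(ρ p).idem] at h1

theorem sum_mul_e (H : MF ρ) (M : Pol Z) (lam : P → ℂ) (q : P) :
    (∑ p, lam p • (ρ p).e) * (ρ q).e = lam q • (ρ q).e := by
  rw [Finset.sum_mul, Finset.sum_eq_single q]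
  · rw [Matrix.smul_mul, (ρ q).idem]
  · intro p _ hp
    rw [Matrix.smul_mul, H.orth M hp, smul_zero]
  · intro h
    exact absurd (Finset.mem_univ _) h

theorem e_mul_sum (H : MF ρ) (M : Pol Z) (lam : P → ℂ) (q : P) :
    (ρ q).e * (∑ p, lam p • (ρ p).e) = lam q • (ρ q).e := by
  rw [Finset.mul_sum, Finset.sum_eq_single q]
  · rw [Matrix.mul_smul, (ρ q).idem]
  · intro p _ hp
    rw [Matrix.mul_smul, H.orth M (Ne.symm hp), smul_zero]
  · intro h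
    exact absurd (Finset.mem_univ _) h

theorem comm_e (H : MF ρ) (M : Pol Z) {c : Matrix (Fin g ⊕ Fin g) (Fin g ⊕ Fin g) ℂ}
    (hc : Ct Z c) (q : P) : c * (ρ q).e = (ρ q).e * c := by
  obtain ⟨lam, rfl⟩ := H.ct c hc
  rw [H.sum_mul_e M, H.e_mul_sum M]

theorem comm (H : MF ρ) (M : Pol Z) {c d : Matrix (Fin g ⊕ Fin g) (Fin g ⊕ Fin g) ℂ}
    (hc : Ct Z c) (hd : Ct Z d) : c * d = d * c := by
  obtain ⟨lam, rfl⟩ := H.ct d hd
  rw [Finset.mul_sum, Finset.sum_mul]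
  refine Finset.sum_congr rfl fun p _ => ?_
  rw [Matrix.mul_smul, Matrix.smul_mul, H.comm_e M hc]

theorem eq_of (H : MF ρ) (M : Pol Z) {φ ψ : Pr Z} (h : Eqv φ ψ) : φ.e = ψ.e := by
  obtain ⟨a, b, h⟩ := h
  rw [← h.ba, ← h.ab, H.comm M h.cb h.ca]

end MF

theorem pr_zero {φ : Pr Z} (h : mu φ = 0) : pr φ = 0 := by
  have h1 : finrank ℂ (LinearMap.range (mulVecLin (pr φ))) = 0 := h
  rw [Submodule.finrank_eq_zero, LinearMap.range_eq_bot] at h1
  apply Matrix.toLin'.injective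
  rw [map_zero]
  exact h1

theorem qr_zero (M : Pol Z) {φ : Pr Z} (h : mu (M.bar φ) = 0) : qr φ = 0 := by
  have h0 := M.trace_qr φ
  rw [h, trace_idemM (M.qr_idem φ)] at h0
  have h1 : finrank ℂ (LinearMap.range (mulVecLin (qr φ))) = 0 := by exact_mod_cast h0
  rw [Submodule.finrank_eq_zero, LinearMap.range_eq_bot] at h1
  apply Matrix.toLin'.injective
  rw [map_zero]
  exact h1

theorem D_e_of_pr {φ : Pr Z} (h : pr φ = 0) : DZ Z * φ.e = -φ.e := by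
  have h1 := pr_add_qr' φ
  have h2 := pr_sub_qr' φ
  rw [h, zero_add] at h1
  rw [h, zero_sub, h1] at h2
  exact h2.symm

theorem D_e_of_qr {φ : Pr Z} (h : qr φ = 0) : DZ Z * φ.e = φ.e := by
  have h1 := pr_add_qr' φ
  have h2 := pr_sub_qr' φ
  rw [h, add_zero] at h1
  rw [h, sub_zero, h1] at h2
  exact h2.symm

/-- All places have dimension one. -/
theorem comm_of_one (M : Pol Z) (hn : ∀ φ : Pr Z, mu φ + mu (M.bar φ) = 1) : Comm Z := by
  have h1 : ∀ φ : Pr Z, ∃ c : ℂ, DZ Z * φ.e = c • φ.e := by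
    intro φ
    have h2 := hn φ
    by_cases h3 : mu φ = 0
    · exact ⟨-1, by rw [D_e_of_pr (pr_zero h3), neg_one_smul]⟩
    · have h4 : mu (M.bar φ) = 0 := by omega
      exact ⟨1, by rw [D_e_of_qr (qr_zero M h4), one_smul]⟩
  have h2 : ∀ (σ : ℂ ≃+* ℂ) (φ : Pr Z), ∃ c : ℂ, (DZ Z).map σ * φ.e = c • φ.e := by
    intro σ φ
    obtain ⟨c, hc⟩ := h1 (M.act σ.symm φ)
    refine ⟨σ c, ?_⟩
    have h3 := congrArg (fun Y : Matrix _ _ ℂ => Y.map (σ : ℂ →+* ℂ)) hc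
    simp only [Matrix.map_mul] at h3
    have h4 : (M.act σ.symm φ).e.map (σ : ℂ →+* ℂ) = φ.e := by
      have h5 := M.act_symm' σ φ
      have h6 := congrArg Pr.e h5
      rw [M.act_e] at h6
      exact h6
    have h5 : (c • (M.act σ.symm φ).e).map (σ : ℂ →+* ℂ) =
        σ c • (M.act σ.symm φ).e.map (σ : ℂ →+* ℂ) := by
      ext i j
      simp
    rw [h5, h4] at h3
    exact h3
  obtain ⟨I, hI, ε, f1, f2, f3⟩ := M.exists_family
  intro σ
  have key : ∀ i, (DZ Z).map σ * DZ Z * (ε i).e = DZ Z * (DZ Z).map σ * (ε i).e := by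
    intro i
    obtain ⟨c, hc⟩ := h1 (ε i)
    obtain ⟨c', hc'⟩ := h2 σ (ε i)
    rw [mul_assoc, hc, Matrix.mul_smul, hc', mul_assoc, hc', Matrix.mul_smul, hc, smul_smul,
      smul_smul, mul_comm]
  calc (DZ Z).map σ * DZ Z = (DZ Z).map σ * DZ Z * ∑ i, (ε i).e := by rw [f3, mul_one]
  _ = ∑ i, (DZ Z).map σ * DZ Z * (ε i).e := by rw [Finset.mul_sum]
  _ = ∑ i, DZ Z * (DZ Z).map σ * (ε i).e := Finset.sum_congr rfl fun i _ => key i
  _ = DZ Z * (DZ Z).map σ * ∑ i, (ε i).e := by rw [Finset.mul_sum]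
  _ = DZ Z * (DZ Z).map σ := by rw [f3, mul_one]

/-- All places are selfconjugate of dimension two. -/
theorem pcs_of_two (hmem : Pool.Agent.Q180.WT.S_memtr) (M : Pol Z) (hs : IsSimpleAV Z)
    {P : Type} [Fintype P] [DecidableEq P] {ρ : P → Pr Z} (H : MF ρ) (p0 : P)
    (hself : ∀ φ : Pr Z, Eqv φ (M.bar φ)) (hn : ∀ φ : Pr Z, mu φ + mu (M.bar φ) = 2) :
    HasPcs (DZ Z) := by
  have hmu : ∀ φ : Pr Z, mu φ = 1 := by
    intro φ
    have h1 := M.mu_eqv (hself φ)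
    have h2 := hn φ
    omega
  have hcop : M.Cop := by
    intro φ
    refine ⟨RingEquiv.refl ℂ, ?_⟩
    rw [hmu, hmu]
    exact Nat.coprime_one_left 1
  have hsep : M.Sep := by
    intro φ ψ _ _ _ _ _ σ
    rw [hmu, hmu]
  have hbar : ∀ p, (M.bar (ρ p)).e = (ρ p).e := fun p => (H.eq_of M (hself (ρ p))).symm
  obtain ⟨v, hv0, hv⟩ : ∃ v : Fin g ⊕ Fin g → ℂ, v ≠ 0 ∧ (ρ p0).e *ᵥ v = v := by
    by_contra hcon
    push Not at hcon
    apply (ρ p0).ne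
    apply mulVec_ext
    intro x
    rw [zero_mulVec]
    by_contra hx
    exact hcon _ hx (by rw [mulVec_mulVec, (ρ p0).idem])
  have hev : ∀ q, q ≠ p0 → (ρ q).e *ᵥ v = 0 := by
    intro q hq
    rw [← hv, mulVec_mulVec, H.orth M hq, zero_mulVec]
  have hvO : ∀ q, v ᵥ* (Om g ℂ * (ρ q).e) = ((ρ q).e *ᵥ v) ᵥ* Om g ℂ := by
    intro q
    have h1 := M.e_Om (M.bar (ρ q))
    rw [M.bar_bar, hbar] at h1
    rw [← h1, ← vecMul_vecMul, vecMul_transpose]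
  set N : Matrix (Fin g ⊕ Fin g) (Fin g ⊕ Fin g) ℂ := SS (Om g ℂ) v v with hN
  have hN1 : N = (2 : ℂ) • (vecMulVec v v * Om g ℂ) := by
    rw [hN, SS, ← two_smul ℂ, Matrix.smul_mul]
  have hNe : ∀ q, N * (ρ q).e = (ρ q).e * N := by
    intro q
    rw [hN1, Matrix.smul_mul, Matrix.mul_smul]
    congr 1
    rw [mul_assoc, vecMulVec_mul, hvO, ← mul_assoc, mul_vecMulVec, vecMulVec_mul]
    by_cases hq : q = p0
    · subst hq
      rw [hv]
    · rw [hev q hq, zero_vecMul, vecMulVec_zero, zero_vecMulVec]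
  have hNmem : N ∈ LZ Z := by
    refine hmem g Z M hcop hsep N ?_ ?_ ?_
    · intro d hd
      obtain ⟨lam, rfl⟩ := H.ct d hd
      rw [Finset.mul_sum, Finset.sum_mul]
      refine Finset.sum_congr rfl fun p _ => ?_
      rw [Matrix.mul_smul, Matrix.smul_mul, hNe]
    · rw [hN1, transpose_smul, transpose_mul, transpose_vecMulVec, Om_transpose]
      rw [Matrix.smul_mul, Matrix.mul_smul, ← smul_add]
      have h1 : -Om g ℂ * vecMulVec v v * Om g ℂ + Om g ℂ * (vecMulVec v v * Om g ℂ) = 0 := by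
        noncomm_ring
      rw [h1, smul_zero]
    · intro φ
      obtain ⟨q, hq⟩ := H.surj φ
      rw [← H.eq_of M hq, hN1, Matrix.smul_mul, trace_smul, mul_assoc, vecMulVec_mul, hvO,
        trace_vecMulVec]
      have h1 : ∀ x : Fin g ⊕ Fin g → ℂ, x ⬝ᵥ (x ᵥ* Om g ℂ) = 0 := by
        intro x
        have h2 : x ⬝ᵥ (x ᵥ* Om g ℂ) = -(x ⬝ᵥ (x ᵥ* Om g ℂ)) := by
          calc x ⬝ᵥ (x ᵥ* Om g ℂ) = (x ᵥ* Om g ℂ) ⬝ᵥ x := dotProduct_comm _ _
          _ = x ⬝ᵥ (Om g ℂ *ᵥ x) := (dotProduct_mulVec _ _ _).symm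
          _ = x ⬝ᵥ (x ᵥ* (Om g ℂ)ᵀ) := by rw [vecMul_transpose]
          _ = -(x ⬝ᵥ (x ᵥ* Om g ℂ)) := by rw [Om_transpose, vecMul_neg, dotProduct_neg]
        have h3 : (2 : ℂ) * (x ⬝ᵥ (x ᵥ* Om g ℂ)) = 0 := by linear_combination h2
        exact (mul_eq_zero.1 h3).resolve_left two_ne_zero
      by_cases hq' : q = p0
      · subst hq'
        rw [hv, h1, smul_zero]
      · rw [hev q hq', zero_vecMul, dotProduct_zero, smul_zero]
  exact hasPcs_of_top (Om_transpose ℂ) (Om_unit ℂ) (sp_C M.symm)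
    (UU_eq_top M.symm M.isUnit hs ⟨v, good_of_sq_gen M.symm M.pos hv0
      (Pool.Agent.Y4.K.Pol.le_lieM M hNmem)⟩)

/-- An odd number of classes of places of dimension two. -/
theorem self_of_odd (M : Pol Z) (hc : ∀ φ ψ : Pr Z, ∃ σ : ℂ ≃+* ℂ, Eqv (M.act σ φ) ψ)
    {P : Type} [Fintype P] [DecidableEq P] {ρ : P → Pr Z} (H : MF ρ)
    (hodd : Odd (Fintype.card P)) (φ : Pr Z) : Eqv φ (M.bar φ) := by
  classical
  have h1 : ∀ p, ∃ q, Eqv (ρ q) (M.bar (ρ p)) := fun p => H.surj _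
  choose b hb using h1
  have hbb : Function.Involutive b := by
    intro p
    apply H.inj
    have h2 := M.eqv_bar (hb p)
    rw [M.bar_bar] at h2
    exact (hb (b p)).trans h2
  let τ : Equiv.Perm P := hbb.toPerm
  have hτ : τ ^ 2 ^ 1 = 1 := by
    ext p
    rw [pow_one, pow_two]
    exact hbb p
  have : Fact (Nat.Prime 2) := ⟨Nat.prime_two⟩
  obtain ⟨p0, hp0⟩ := Equiv.Perm.exists_fixed_point_of_prime (p := 2) (n := 1) (σ := τ) (by
    rw [← even_iff_two_dvd, Nat.not_even_iff_odd]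
    exact hodd) hτ
  have hp1 : b p0 = p0 := hp0
  have h2 : Eqv (ρ p0) (M.bar (ρ p0)) := by
    have h3 := hb p0
    rwa [hp1] at h3
  obtain ⟨σ, hσ⟩ := hc (ρ p0) φ
  have h4 := M.eqv_act h2 σ
  rw [← M.bar_act] at h4
  exact (hσ.symm.trans h4).trans (M.eqv_bar hσ)

end Pool.Agent.Q275.UW
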