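import Mathlib
import Pool.Agent.Q275.UW.Mf
import Pool.Agent.Q6.D3.Tri

/-!
# Project UW (helper180), job UPRIME: two places
-/

set_option linter.unusedSectionVars false

namespace Pool.Agent.Q275.UW

open Matrix Module Polynomial Pool.Agent.H204R3.CM Pool.Agent.H194R3.CM Pool.Agent.W437.HC
  Pool.Agent.W437.HD Pool.Agent.W437.HP Pool.Agent.W437.HQ Pool.Agent.W437.HR Pool.Agent.W548.Odd
  Pool.Agent.TH125 Pool.Agent.Y4 Pool.Agent.Y4.G
open Pool.Agent.Y4.H (exists_prims LZ Ct map_smul_aut' D_mem_LZ Dσ_mem_LZ)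
open Pool.Agent.Y4.K (Pol Pr mu Eqv Iso pr qr pr_add_qr' pr_sub_qr')
open Pool.Agent.Q60.D3 (Comm ofZ IsHom hom_of_comm)
open Pool.Agent.Q6.D3 (ad ad_spec Om_ad cq_sub cq_neg cq_Om cq_transpose cq_smul sq_neg
  comm_of_smul)
open Pool.Agent.Q180.UW (IsCMField IsUnitary mult)

variable {g : ℕ} {Z : Matrix (Fin g) (Fin g) ℂ}

theorem cq_add (u v : Matrix (Fin g ⊕ Fin g) (Fin g ⊕ Fin g) ℚ) : cq (u + v) = cq u + cq v := by
  ext i j
  simp [cq]

theorem cq_one' : cq (1 : Matrix (Fin g ⊕ Fin g) (Fin g ⊕ Fin g) ℚ) = 1 :=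
  Matrix.map_one _ (by simp) (by simp)

/-! ### the field -/

theorem root_iff {d : ℚ} {l : ℂ} (hl : l * l = -(d : ℂ)) (μ : ℂ) :
    aeval μ (X ^ 2 + C d : ℚ[X]) = 0 ↔ μ = l ∨ μ = -l := by
  have h1 : aeval μ (X ^ 2 + C d : ℚ[X]) = μ ^ 2 + (d : ℂ) := by
    simp
  rw [h1]
  constructor
  · intro h
    have h2 : (μ - l) * (μ + l) = 0 := by linear_combination h - hl
    rcases mul_eq_zero.1 h2 with h3 | h3
    · exact Or.inl (sub_eq_zero.1 h3)
    · exact Or.inr (eq_neg_of_add_eq_zero_left h3)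
  · rintro (rfl | rfl)
    · linear_combination hl
    · linear_combination hl

theorem conj_root {d : ℚ} (hd : 0 < d) {l : ℂ} (hl : l * l = -(d : ℂ)) :
    starRingEnd ℂ l = -l := by
  have h1 := congrArg Complex.re hl
  have h2 := congrArg Complex.im hl
  have e1 : (-(d : ℂ)).re = -(d : ℝ) := by simp
  have e2 : (-(d : ℂ)).im = 0 := by simp
  rw [Complex.mul_re, e1] at h1
  rw [Complex.mul_im, e2] at h2
  have hd' : (0 : ℝ) < d := by exact_mod_cast hd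
  have h3 : l.re = 0 := by
    have h4 : l.re * l.im = 0 := by linarith
    rcases mul_eq_zero.1 h4 with h5 | h5
    · exact h5
    · rw [h5] at h1
      nlinarith
  apply Complex.ext
  · simp [h3]
  · simp

theorem isCM {d : ℚ} (hd : 0 < d) : IsCMField 2 (X ^ 2 + C d : ℚ[X]) := by
  refine ⟨?_, by compute_degree!, -X, ?_⟩
  · have hm : (X ^ 2 + C d : ℚ[X]).Monic := by monicity!
    have hdeg : (X ^ 2 + C d : ℚ[X]).natDegree = 2 := by compute_degree!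
    rw [hm.irreducible_iff_roots_eq_zero_of_degree_le_three (by rw [hdeg]) (by rw [hdeg]; norm_num)]
    rw [Multiset.eq_zero_iff_forall_notMem]
    intro x hx
    have h1 := (mem_roots'.1 hx).2
    rw [IsRoot.def] at h1
    simp at h1
    nlinarith [sq_nonneg x]
  · intro μ hμ
    have h1 : μ * μ = -(d : ℂ) := by
      have h2 : aeval μ (X ^ 2 + C d : ℚ[X]) = μ ^ 2 + (d : ℂ) := by simp
      rw [h2] at hμ
      linear_combination hμ
    have h2 := conj_root hd h1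
    refine ⟨?_, ?_⟩
    · rw [h2]
      intro h3
      have h4 : μ = 0 := by
        have h5 : (2 : ℂ) * μ = 0 := by linear_combination -h3
        exact (mul_eq_zero.1 h5).resolve_left two_ne_zero
      rw [h4, mul_zero] at h1
      have h5 : (d : ℂ) = 0 := by linear_combination h1
      have h6 : d = 0 := by exact_mod_cast h5
      exact hd.ne' h6
    · rw [h2]
      simp

theorem aeval_zero {d : ℚ} {φ : Matrix (Fin g ⊕ Fin g) (Fin g ⊕ Fin g) ℚ}
    (h : φ * φ = -(d • (1 : Matrix (Fin g ⊕ Fin g) (Fin g ⊕ Fin g) ℚ))) :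
    aeval φ (X ^ 2 + C d : ℚ[X]) = 0 := by
  have h1 : aeval φ (X ^ 2 + C d : ℚ[X]) =
      φ ^ 2 + d • (1 : Matrix (Fin g ⊕ Fin g) (Fin g ⊕ Fin g) ℚ) := by
    simp [Algebra.algebraMap_eq_smul_one]
  rw [h1, pow_two, h, neg_add_cancel]

/-! ### the two places -/

/-- Two places `e`, `f` exchanged by the involution. -/
structure Two (M : Pol Z) (φ : Pr Z) (f : Matrix (Fin g ⊕ Fin g) (Fin g ⊕ Fin g) ℂ) : Prop where
  bar : (M.bar φ).e = f
  sum : φ.e + f = 1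
  ef : φ.e * f = 0
  fe : f * φ.e = 0
  ct : ∀ c, Ct Z c → ∃ a b : ℂ, c = a • φ.e + b • f

theorem two_of_MF (M : Pol Z) {P : Type} [Fintype P] [DecidableEq P] {ρ : P → Pr Z} (H : MF ρ)
    (hP : Fintype.card P = 2) (hg : Odd g) (hn : ∀ φ : Pr Z, mu φ + mu (M.bar φ) = g) :
    ∃ (φ : Pr Z) (f : _), Two M φ f := by
  rw [← Finset.card_univ, Finset.card_eq_two] at hP
  obtain ⟨p, q, hpq, huniv⟩ := hP
  have hb : (M.bar (ρ p)).e = (ρ q).e := by
    obtain ⟨r, hr⟩ := H.surj (M.bar (ρ p))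
    have h1 : r ∈ (Finset.univ : Finset P) := Finset.mem_univ r
    rw [huniv, Finset.mem_insert, Finset.mem_singleton] at h1
    rcases h1 with rfl | rfl
    · exfalso
      have h2 := M.mu_eqv hr
      have h3 := hn (ρ r)
      rw [← h2] at h3
      rcases hg with ⟨k, hk⟩
      omega
    · exact (H.eq_of M hr).symm
  refine ⟨ρ p, (ρ q).e, hb, ?_, H.orth M hpq, H.orth M (Ne.symm hpq), ?_⟩
  · rw [← H.sum, huniv, Finset.sum_pair hpq]
  · intro c hc
    obtain ⟨lam, hlam⟩ := H.ct c hc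
    refine ⟨lam p, lam q, ?_⟩
    rw [huniv, Finset.sum_pair hpq] at hlam
    exact hlam

namespace Two

variable {M : Pol Z} {φ : Pr Z} {f : Matrix (Fin g ⊕ Fin g) (Fin g ⊕ Fin g) ℂ}

theorem ff (T : Two M φ f) : f * f = f := by
  have h1 := (M.bar φ).idem
  rwa [T.bar] at h1

theorem bar' (T : Two M φ f) : -(Om g ℂ * fᵀ * Om g ℂ) = φ.e := by
  have h1 := M.bar_bar φ
  have h2 := congrArg Pr.e h1
  rw [M.bar_e, T.bar] at h2
  exact h2

theorem cq_ad (T : Two M φ f) {u : Matrix (Fin g ⊕ Fin g) (Fin g ⊕ Fin g) ℚ} {a b : ℂ}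
    (h : cq u = a • φ.e + b • f) : cq (ad u) = b • φ.e + a • f := by
  have h1 := M.bar_e φ
  rw [T.bar] at h1
  have h2 := T.bar'
  unfold ad
  rw [cq_neg, cq_mul, cq_mul, cq_Om, cq_transpose, h, transpose_add, transpose_smul,
    transpose_smul, mul_add, add_mul, Matrix.mul_smul, Matrix.mul_smul, Matrix.smul_mul,
    Matrix.smul_mul, neg_add, ← smul_neg, ← smul_neg, ← h1, h2, add_comm]

theorem sq (T : Two M φ f) : (φ.e - f) * (φ.e - f) = 1 := by
  rw [← T.sum, mul_sub, sub_mul, sub_mul, φ.idem, T.ef, T.fe, T.ff]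
  noncomm_ring

theorem exists_phi (T : Two M φ f) [Nonempty (Fin g)] :
    ∃ (ψ : Matrix (Fin g ⊕ Fin g) (Fin g ⊕ Fin g) ℚ) (l : ℂ) (d : ℚ), l ≠ 0 ∧ 0 < d ∧
      l * l = -(d : ℂ) ∧ ψ * ψ = -(d • (1 : Matrix (Fin g ⊕ Fin g) (Fin g ⊕ Fin g) ℚ)) ∧
      cq ψ = l • (φ.e - f) := by
  obtain ⟨u, hu, hus⟩ : ∃ u : Matrix (Fin g ⊕ Fin g) (Fin g ⊕ Fin g) ℚ, Ct Z (cq u) ∧
      ¬ ∃ s : ℂ, cq u = s • (1 : Matrix (Fin g ⊕ Fin g) (Fin g ⊕ Fin g) ℂ) := by
    by_contra hcon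
    push Not at hcon
    have key : ∀ X, InCm (DZ '' {Z}) X →
        ∃ s : ℂ, X = s • (1 : Matrix (Fin g ⊕ Fin g) (Fin g ⊕ Fin g) ℂ) := by
      apply Cm_induction
      · intro u hu
        exact hcon u hu
      · exact ⟨0, by rw [zero_smul]⟩
      · rintro X Y ⟨s, hs⟩ ⟨t, ht⟩
        exact ⟨s + t, by rw [hs, ht, add_smul]⟩
      · rintro c X ⟨s, hs⟩
        exact ⟨c * s, by rw [hs, smul_smul]⟩
    obtain ⟨s, hs⟩ := key φ.e φ.mem
    have h1 := T.ef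
    rw [hs, Matrix.smul_mul, one_mul] at h1
    rcases smul_eq_zero.1 h1 with h2 | h2
    · rw [h2, zero_smul] at hs
      exact φ.ne hs
    · apply (M.bar φ).ne
      rw [T.bar, h2]
  obtain ⟨a, b, hab⟩ := T.ct _ hu
  have hne : a ≠ b := by
    intro h
    apply hus
    refine ⟨a, ?_⟩
    rw [hab, ← h, ← smul_add, T.sum]
  have hcq : cq (u - ad u) = (a - b) • (φ.e - f) := by
    rw [cq_sub, hab, T.cq_ad hab]
    module
  have hl : a - b ≠ 0 := sub_ne_zero.2 hne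
  have hsk : (cq (u - ad u))ᵀ * Om g ℂ = -(Om g ℂ * cq (u - ad u)) := by
    have h1 : (u - ad u)ᵀ * Om g ℚ = -(Om g ℚ * (u - ad u)) := by
      rw [transpose_sub, sub_mul, ad_spec, mul_sub, Om_ad, neg_sub]
    have h2 := congrArg (cq (g := g)) h1
    rwa [cq_mul, cq_neg, cq_mul, cq_Om, cq_transpose] at h2
  have hct : Ct Z (φ.e - f) := by
    have h1 : Ct Z f := by
      rw [← T.bar]
      exact (M.bar φ).mem
    exact InCm.sub φ.mem h1
  have hD : cq (u - ad u) * DZ Z = DZ Z * cq (u - ad u) := by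
    rw [hcq, Matrix.smul_mul, Matrix.mul_smul, hct _ D_mem_LZ]
  have hsq : cq (u - ad u) * cq (u - ad u) =
      ((a - b) * (a - b)) • (1 : Matrix (Fin g ⊕ Fin g) (Fin g ⊕ Fin g) ℂ) := by
    rw [hcq, smul_mul_smul_comm, T.sq]
  obtain ⟨d, hd, hld, hφφ⟩ := sq_neg M.symm M.pos hl hsk hD hsq
  exact ⟨u - ad u, a - b, d, hl, hd, hld, hφφ, hcq⟩

/-- The rational elements of the commutant. -/
theorem rat_comb (T : Two M φ f) [Nonempty (Fin g)]
    {ψ : Matrix (Fin g ⊕ Fin g) (Fin g ⊕ Fin g) ℚ} {l : ℂ} (hl : l ≠ 0)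
    (hψ : cq ψ = l • (φ.e - f)) {u : Matrix (Fin g ⊕ Fin g) (Fin g ⊕ Fin g) ℚ}
    (hu : Ct Z (cq u)) :
    ∃ r s : ℚ, u = r • (1 : Matrix (Fin g ⊕ Fin g) (Fin g ⊕ Fin g) ℚ) + s • ψ := by
  obtain ⟨i0⟩ := (inferInstance : Nonempty (Fin g))
  obtain ⟨a, b, hab⟩ := T.ct _ hu
  have had := T.cq_ad hab
  have h1 : cq (u + ad u) = (a + b) • (1 : Matrix (Fin g ⊕ Fin g) (Fin g ⊕ Fin g) ℂ) := by
    rw [cq_add, hab, had, ← T.sum]
    module
  have h2 : cq (u - ad u) = ((a - b) / l) • cq ψ := by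
    rw [cq_sub, hab, had, hψ, smul_smul, div_mul_cancel₀ _ hl]
    module
  have hψ0 : ψ ≠ 0 := by
    rintro rfl
    have h3 : cq (0 : Matrix (Fin g ⊕ Fin g) (Fin g ⊕ Fin g) ℚ) = 0 := by
      ext i j
      simp [cq]
    rw [h3] at hψ
    have h4 := (smul_eq_zero.1 hψ.symm).resolve_left hl
    have h5 := T.sq
    rw [h4, mul_zero] at h5
    have h6 := congrFun (congrFun h5 (Sum.inl i0)) (Sum.inl i0)
    simp at h6
  obtain ⟨i, j, hij⟩ : ∃ i j, ψ i j ≠ 0 := by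
    by_contra hcon
    push Not at hcon
    exact hψ0 (by ext i j; exact hcon i j)
  obtain ⟨r, hr⟩ : ∃ r : ℚ, r = (u + ad u) (Sum.inl i0) (Sum.inl i0) := ⟨_, rfl⟩
  obtain ⟨s, hs⟩ : ∃ s : ℚ, s = (u - ad u) i j / ψ i j := ⟨_, rfl⟩
  have hrc : (r : ℂ) = a + b := by
    have h3 := congrFun (congrFun h1 (Sum.inl i0)) (Sum.inl i0)
    rw [Matrix.smul_apply, Matrix.one_apply_eq, smul_eq_mul, mul_one] at h3
    rw [← h3, hr]
    rfl
  have hsc : (s : ℂ) = (a - b) / l := by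
    have h3 := congrFun (congrFun h2 i) j
    rw [Matrix.smul_apply, smul_eq_mul] at h3
    have h4 : (cq ψ) i j = ((ψ i j : ℚ) : ℂ) := rfl
    have h5 : (cq (u - ad u)) i j = (((u - ad u) i j : ℚ) : ℂ) := rfl
    rw [h4, h5] at h3
    have h6 : ((ψ i j : ℚ) : ℂ) ≠ 0 := by exact_mod_cast hij
    rw [hs, Rat.cast_div, h3, mul_div_assoc, div_self h6, mul_one]
  refine ⟨r / 2, s / 2, ?_⟩
  apply cq_inj
  rw [cq_add, cq_smul, cq_smul, cq_one']
  have h3 : cq u = (2 : ℂ)⁻¹ • (cq (u + ad u) + cq (u - ad u)) := by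
    rw [cq_add, cq_sub]
    module
  rw [h3, h1, h2, ← hrc, ← hsc]
  push_cast
  module

end Two

/-- Two places: unitary type or CM type. -/
theorem unitary (hlin : Pool.Agent.Q180.UW.S_lin) (hmul : Pool.Agent.Q180.UW.S_mul)
    (hZ : Zᵀ = Z) (hpos : (imM Z).PosDef) (M : Pol Z) (hg : g.Prime) (hg3 : 3 ≤ g)
    {φ : Pr Z} {f : Matrix (Fin g ⊕ Fin g) (Fin g ⊕ Fin g) ℂ} (T : Two M φ f)
    (hn : ∀ φ : Pr Z, mu φ + mu (M.bar φ) = g) :
    Comm Z ∨ ∃ M' : ℕ, IsUnitary (ofZ Z hZ hpos) 2 M' := by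
  classical
  have hne : Nonempty (Fin g) := ⟨⟨0, by omega⟩⟩
  obtain ⟨ψ, l, d, hl, hd, hld, hψψ, hψ⟩ := T.exists_phi
  have hφ' : (M.bar φ).e = f := T.bar
  have hD : DZ Z = DZ Z * φ.e + DZ Z * f := by rw [← mul_add, T.sum, mul_one]
  have hcomm : ∀ c : ℂ, DZ Z = c • cq ψ → Comm Z := by
    intro c hc
    apply comm_of_smul (φ := ψ) (σ := RingEquiv.refl ℂ) (c := c)
    rw [← hc]
    ext i j
    rfl
  have hbb : M.bar (M.bar φ) = φ := M.bar_bar φ
  by_cases h0 : mu φ = 0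
  · left
    have h1 := D_e_of_pr (pr_zero h0)
    have h2 : qr (M.bar φ) = 0 := qr_zero M (by rw [hbb]; exact h0)
    have h3 := D_e_of_qr h2
    rw [hφ'] at h3
    apply hcomm (-l⁻¹)
    rw [hD, h1, h3, hψ, smul_smul, neg_mul, inv_mul_cancel₀ hl]
    module
  by_cases h0' : mu (M.bar φ) = 0
  · left
    have h1 := D_e_of_qr (qr_zero M h0')
    have h3 := D_e_of_pr (pr_zero h0')
    rw [hφ'] at h3
    apply hcomm (l⁻¹)
    rw [hD, h1, h3, hψ, smul_smul, inv_mul_cancel₀ hl]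
    module
  right
  have hct : Ct Z (cq ψ) := by
    have h1 : Ct Z f := by
      rw [← T.bar]
      exact (M.bar φ).mem
    have h2 : Ct Z (φ.e - f) := InCm.sub φ.mem h1
    intro X hX
    rw [hψ, Matrix.smul_mul, Matrix.mul_smul, h2 X hX]
  have hψD : cK ℂ ψ * DZ Z = DZ Z * cK ℂ ψ := hct _ D_mem_LZ
  obtain ⟨C', hC'⟩ := hom_of_comm hZ hpos hZ hpos hψD
  have hC : ∀ w : Fin g ⊕ Fin g → ℚ, (C' : (Fin g → ℂ) →ₗ[ℂ] (Fin g → ℂ)) (perOne Z w) =
      perOne Z (ψ *ᵥ w) := fun w => hC' w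
  have hP := isCM hd
  have hae := aeval_zero (g := g) hψψ
  obtain ⟨Q, V, hQV, htot⟩ := hlin (Fin g ⊕ Fin g) (X ^ 2 + C d : ℚ[X]) ψ g hP.1 hae (by
    rw [hP.2.1, Fintype.card_sum, Fintype.card_fin]
    ring)
  have hm := hmul g Z hZ hpos (X ^ 2 + C d : ℚ[X]) ψ g C' Q V hP.1 hae hC hQV htot
  have hr1 : aeval l (X ^ 2 + C d : ℚ[X]) = 0 := (root_iff hld l).2 (Or.inl rfl)
  have hVl : V l * Q l = φ.e := by
    have hfV : f * V l = 0 := by
      have h1 := (hQV l hr1).2.2.2.1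
      have h2 : cK ℂ ψ = l • (φ.e - f) := hψ
      rw [h2, Matrix.smul_mul] at h1
      have h3 : (φ.e - f) * V l = V l := smul_right_injective _ hl h1
      have h4 : φ.e * V l + f * V l = V l := by rw [← Matrix.add_mul, T.sum, Matrix.one_mul]
      rw [Matrix.sub_mul] at h3
      have h5 : (2 : ℂ) • (f * V l) = 0 := by
        have h6 : (2 : ℂ) • (f * V l) = (φ.e * V l + f * V l) - (φ.e * V l - f * V l) := by
          module
        rw [h6, h3, h4, sub_self]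
      exact (smul_eq_zero.1 h5).resolve_left two_ne_zero
    have heV : φ.e * V l = V l := by
      have h4 : φ.e * V l + f * V l = V l := by rw [← Matrix.add_mul, T.sum, Matrix.one_mul]
      rwa [hfV, add_zero] at h4
    have heV' : φ.e * V (-l) = 0 := by
      have hr2 : aeval (-l) (X ^ 2 + C d : ℚ[X]) = 0 := (root_iff hld (-l)).2 (Or.inr rfl)
      have h1 := (hQV (-l) hr2).2.2.2.1
      have h2 : cK ℂ ψ = l • (φ.e - f) := hψ
      rw [h2, Matrix.smul_mul, neg_smul, ← smul_neg] at h1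
      have h3 : (φ.e - f) * V (-l) = -V (-l) := smul_right_injective _ hl h1
      have h4 : φ.e * V (-l) + f * V (-l) = V (-l) := by
        rw [← Matrix.add_mul, T.sum, Matrix.one_mul]
      rw [Matrix.sub_mul] at h3
      have h5 : (2 : ℂ) • (φ.e * V (-l)) = 0 := by
        have h6 : (2 : ℂ) • (φ.e * V (-l)) =
            (φ.e * V (-l) + f * V (-l)) + (φ.e * V (-l) - f * V (-l)) := by
          module
        rw [h6, h3, h4, add_neg_cancel]
      exact (smul_eq_zero.1 h5).resolve_left two_ne_zero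
    have h1 : φ.e = ∑ μ ∈ ((X ^ 2 + C d : ℚ[X]).aroots ℂ).toFinset, φ.e * (V μ * Q μ) := by
      rw [← Finset.mul_sum, htot, mul_one]
    rw [h1, Finset.sum_eq_single l]
    · rw [← Matrix.mul_assoc, heV]
    · intro μ hμ hne'
      rw [Multiset.mem_toFinset, mem_aroots'] at hμ
      rcases (root_iff hld μ).1 hμ.2 with h2 | h2
      · exact absurd h2 hne'
      · rw [h2, ← Matrix.mul_assoc, heV', Matrix.zero_mul]
    · intro h2
      exfalso
      apply h2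
      rw [Multiset.mem_toFinset, mem_aroots']
      refine ⟨?_, hr1⟩
      exact Polynomial.map_ne_zero hP.1.ne_zero
  obtain ⟨mt, hmt⟩ : ∃ mt : ℂ → ℕ, ∀ μ, mt μ = mult (T := Fin g → ℂ) C' μ := ⟨_, fun _ => rfl⟩
  have hm' : ∀ μ, aeval μ (X ^ 2 + C d : ℚ[X]) = 0 → mt μ ≤ g ∧
      mt (starRingEnd ℂ μ) = g - mt μ ∧ trace (DZ Z * (V μ * Q μ)) = 2 * (mt μ : ℂ) - g := by
    intro μ hμ
    rw [hmt, hmt]
    exact hm μ hμ
  have hml : mt l = mu φ := by
    have h1 := (hm' l hr1).2.2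
    rw [hVl, ← pr_sub_qr', trace_sub, M.trace_pr, M.trace_qr] at h1
    have h2 := congrArg (fun n : ℕ => (n : ℂ)) (hn φ)
    push_cast at h2
    have h4 : (mt l : ℂ) = mu φ := by linear_combination (-(1 / 2 : ℂ)) * h1 + (-(1 / 2 : ℂ)) * h2
    exact_mod_cast h4
  have hml' : mt (-l) = mu (M.bar φ) := by
    have h1 := (hm' l hr1).2.1
    rw [conj_root hd hld, hml] at h1
    have h2 := hn φ
    rw [h1]
    omega
  refine ⟨g, X ^ 2 + C d, Matrix.mulVecLin ψ, C', g, hP, hC', ?_, ?_, hg3, ?_, ?_, l, hr1, ?_⟩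
  · have h1 : Matrix.mulVecLin ψ = (Matrix.toLinAlgEquiv' : Matrix (Fin g ⊕ Fin g)
      (Fin g ⊕ Fin g) ℚ ≃ₐ[ℚ] _) ψ := rfl
    have h2 : aeval ((Matrix.toLinAlgEquiv' : Matrix (Fin g ⊕ Fin g)
      (Fin g ⊕ Fin g) ℚ ≃ₐ[ℚ] _) ψ) (X ^ 2 + C d : ℚ[X]) = (Matrix.toLinAlgEquiv' :
        Matrix (Fin g ⊕ Fin g) (Fin g ⊕ Fin g) ℚ ≃ₐ[ℚ] _) (aeval ψ (X ^ 2 + C d : ℚ[X])) :=
      Polynomial.aeval_algHom_apply (Matrix.toLinAlgEquiv' :
        Matrix (Fin g ⊕ Fin g) (Fin g ⊕ Fin g) ℚ ≃ₐ[ℚ] _).toAlgHom ψ _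
    rw [hae, map_zero] at h2
    exact h2
  · change 2 * finrank ℂ (Fin g → ℂ) = 2 * g
    rw [Module.finrank_fintype_fun_eq_card, Fintype.card_fin]
  · rintro (h : (Fin g ⊕ Fin g → ℚ) →ₗ[ℚ] (Fin g ⊕ Fin g → ℚ)) ⟨C2, hC2⟩ _
    obtain ⟨C3, hC3⟩ : ∃ C3 : (Fin g → ℂ) →ₗ[ℂ] (Fin g → ℂ),
        ∀ w : Fin g ⊕ Fin g → ℚ, C3 (perOne Z w) = perOne Z (h w) := ⟨C2, fun w => hC2 w⟩
    have hend : IsEndo Z (LinearMap.toMatrix' h) (LinearMap.toMatrix' C3) := by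
      intro w
      rw [← Matrix.toLin'_apply, Matrix.toLin'_toMatrix', ← Matrix.toLin'_apply,
        Matrix.toLin'_toMatrix', hC3]
    obtain ⟨r, s, hrs⟩ := T.rat_comb hl hψ (M.Ct_of_endo hend)
    refine ⟨C r + C s * X, ?_⟩
    have h1 : h = Matrix.toLin' (LinearMap.toMatrix' h) := (Matrix.toLin'_toMatrix' h).symm
    change h = aeval (Matrix.mulVecLin ψ) (C r + C s * X : ℚ[X])
    rw [h1, hrs]
    apply LinearMap.ext
    intro x
    simp [Matrix.toLin'_apply, Algebra.algebraMap_eq_smul_one]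
  · intro μ hμ
    have h1 : 1 ≤ mt μ := by
      rcases (root_iff hld μ).1 hμ with h2 | h2
      · rw [h2, hml]
        omega
      · rw [h2, hml']
        omega
    exact ⟨le_of_le_of_eq h1 (hmt μ), le_of_eq_of_le (hmt μ).symm (hm' μ hμ).1⟩
  · have h2 := hn φ
    have h3 : Nat.Coprime g (mu φ) := Nat.coprime_of_lt_prime h0 (by omega) hg
    have h4 : Nat.Coprime (mu φ) (mu φ + mu (M.bar φ)) := by
      have h5 : mu φ + mu (M.bar φ) = g := h2
      rw [Nat.coprime_comm]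
      exact h5.symm ▸ h3
    rw [Nat.coprime_self_add_right] at h4
    have h6 : Nat.Coprime (mt l) (mt (starRingEnd ℂ l)) := by
      rw [conj_root hd hld, hml, hml']
      exact h4
    rw [hmt, hmt] at h6
    exact h6

end Pool.Agent.Q275.UW
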