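import Mathlib
import Pool.Agent.Q275.UW.Uni
import Pool.Agent.Q144.D3.Noe

/-!
# Project UW (helper180), job UPRIME
-/

set_option linter.unusedSectionVars false

namespace Pool.Agent.Q275.UW

open Matrix Module Pool.Agent.H204R3.CM Pool.Agent.H194R3.CM Pool.Agent.W437.HC
  Pool.Agent.W437.HD Pool.Agent.W437.HP Pool.Agent.W437.HQ Pool.Agent.W437.HR Pool.Agent.W548.Odd
  Pool.Agent.TH125 Pool.Agent.Y4 Pool.Agent.Y4.G
open Pool.Agent.Y4.H (exists_prims LZ Ct map_smul_aut' D_mem_LZ Dσ_mem_LZ)
open Pool.Agent.Y4.K (Pol Pr mu Eqv Iso pr qr pr_add_qr' pr_sub_qr')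
open Pool.Agent.Q60.D3 (Comm ofZ)

theorem prime (hpla : Pool.Agent.Q180.UW.S_pla) (hodd : Pool.Agent.Q180.UW.S_odd)
    (hmem : Pool.Agent.Q180.WT.S_memtr) (hlin : Pool.Agent.Q180.UW.S_lin)
    (hmul : Pool.Agent.Q180.UW.S_mul) : Pool.Agent.Q180.UW.S_prime := by
  intro g Z hZ hpos hg hs
  by_cases hg2 : g ≤ 2
  · rcases Pool.Agent.Q6.D3.tri Pool.Agent.Q144.D3.noe g Z hZ hpos hs (by omega) with h | h | h
    · exact Or.inl h
    · exact Or.inr (Or.inl h)
    · omega
  have hp : g.Prime := hg.resolve_left hg2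
  have hg3 : 3 ≤ g := by omega
  have hgo : Odd g := hp.odd_of_ne_two (by omega)
  have M : Pol Z := ⟨hZ, hpos⟩
  obtain ⟨hc, e, d, n, hedn, hdvd, hn, P, iF, iD, ρ, hcard, hsurj, hinj, hd⟩ :=
    hpla g Z M hs (by omega)
  have hd1 : d = 1 := by
    have hd0 : 0 < d := by
      rcases Nat.eq_zero_or_pos d with h | h
      · rw [h] at hedn
        omega
      · exact h
    have h1 : d ^ 2 ∣ 2 * g := (Dvd.intro_left e rfl).trans hdvd
    by_contra hd1
    obtain ⟨q, hq, hqd⟩ := Nat.exists_prime_and_dvd hd1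
    have h2 : q ^ 2 ∣ 2 * g := (pow_dvd_pow_of_dvd hqd 2).trans h1
    have h3 : q ∣ 2 * g := (dvd_pow_self q two_ne_zero).trans h2
    rcases (Nat.Prime.dvd_mul hq).1 h3 with h4 | h4
    · rw [(Nat.prime_dvd_prime_iff_eq hq Nat.prime_two).1 h4] at h2
      have h5 : 2 ∣ g := by
        obtain ⟨k, hk⟩ := h2
        exact ⟨k, by omega⟩
      rcases hgo with ⟨k, hk⟩
      omega
    · rw [(Nat.prime_dvd_prime_iff_eq hq hp).1 h4, pow_two] at h2
      have h5 := Nat.dvd_of_mul_dvd_mul_right hp.pos h2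
      have h6 := Nat.le_of_dvd (by norm_num) h5
      omega
  obtain ⟨hsum, hct⟩ := hd hd1
  have H : MF ρ := ⟨hsurj, hinj, hsum, hct⟩
  rw [hd1, mul_one] at hedn
  have he : e ∣ 2 * g := Dvd.intro n hedn.symm
  have hcases : e = 1 ∨ e = 2 ∨ e = g ∨ e = 2 * g := by
    have h1 : g ∣ e * n := Dvd.intro_left 2 hedn
    rcases (Nat.Prime.dvd_mul hp).1 h1 with ⟨k, hk⟩ | ⟨k, hk⟩
    · have h2 : k * n = 2 := by
        have h3 : g * (k * n) = g * 2 := by
          rw [← mul_assoc, ← hk, ← hedn]
          ring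
        exact Nat.eq_of_mul_eq_mul_left hp.pos h3
      have h3 : k ∣ 2 := Dvd.intro n h2
      rcases (Nat.dvd_prime Nat.prime_two).1 h3 with h4 | h4
      · right; right; left
        rw [hk, h4, mul_one]
      · right; right; right
        rw [hk, h4, mul_comm]
    · have h2 : e * k = 2 := by
        have h3 : g * (e * k) = g * 2 := by
          have h4 : e * n = e * (g * k) := by rw [← hk]
          rw [← hedn] at h4
          calc g * (e * k) = e * (g * k) := by ring
          _ = 2 * g := h4.symm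
          _ = g * 2 := mul_comm _ _
        exact Nat.eq_of_mul_eq_mul_left hp.pos h3
      have h3 : e ∣ 2 := Dvd.intro k h2
      rcases (Nat.dvd_prime Nat.prime_two).1 h3 with h4 | h4
      · exact Or.inl h4
      · exact Or.inr (Or.inl h4)
  rcases hcases with h | h | h | h
  · -- the endomorphisms are rational numbers
    right; left
    refine hodd g Z hZ hpos hgo fun ψ hψ => ?_
    have hψc : Ct Z (cq ψ) := M.Ct_of_endo (endo_of_comm M.isUnit hψ)
    obtain ⟨lam, hlam⟩ := hct _ hψc
    rw [h, Fintype.card_eq_one_iff] at hcard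
    obtain ⟨p, hp1⟩ := hcard
    have huniv : (Finset.univ : Finset P) = {p} := by
      ext q
      simp [hp1 q]
    rw [huniv, Finset.sum_singleton] at hlam hsum
    rw [hsum] at hlam
    have i0 : Fin g := ⟨0, by omega⟩
    have h1 : lam p = ((ψ (Sum.inl i0) (Sum.inl i0) : ℚ) : ℂ) := by
      have h2 := congrFun (congrFun hlam (Sum.inl i0)) (Sum.inl i0)
      rw [Matrix.smul_apply, Matrix.one_apply_eq, smul_eq_mul, mul_one] at h2
      exact h2.symm
    refine ⟨ψ (Sum.inl i0) (Sum.inl i0), ?_⟩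
    apply cq_inj
    rw [Pool.Agent.Q6.D3.cq_smul, cq_one', hlam, h1]
  · -- two places
    have hng : n = g := by
      rw [h] at hedn
      omega
    rw [hng] at hn
    obtain ⟨φ, f, T⟩ := two_of_MF M H (hcard.trans h) hgo hn
    rcases unitary hlin hmul hZ hpos M hp hg3 T hn with h1 | h1
    · exact Or.inl h1
    · exact Or.inr (Or.inr h1)
  · -- places of dimension two
    right; left
    have hn2 : n = 2 := by
      rw [h, mul_comm] at hedn
      exact (Nat.eq_of_mul_eq_mul_left hp.pos hedn).symm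
    rw [hn2] at hn
    have hodd' : Odd (Fintype.card P) := by
      rw [hcard, h]
      exact hgo
    have p0 : P := by
      have : 0 < Fintype.card P := by
        rw [hcard, h]
        omega
      exact (Fintype.card_pos_iff.1 this).some
    exact pcs_of_two hmem M hs H p0 (self_of_odd M hc H hodd') hn
  · -- places of dimension one
    left
    have hn1 : n = 1 := by
      rw [h] at hedn
      have h2 : 2 * g * 1 = 2 * g * n := by rw [mul_one]; exact hedn
      exact (Nat.eq_of_mul_eq_mul_left (by omega) h2).symm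
    rw [hn1] at hn
    exact comm_of_one M hn

end Pool.Agent.Q275.UW

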